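import Pool.Agent.CSP.AlNorm
import Pool.Agent.CHO.Defs
import Pool.Agent.GLB.Defs

/-!
# CSZ/Alg: the vectors `v, m, m'` of the matrix `C`
-/

namespace Pool.Agent.CSZ

open Pool.Agent.CSP Pool.Agent.GLB

theorem exists_alg {C : Matrix (Fin 3) (Fin 3) ℤ} (h : CSP.NF C) :
    ∃ v m m' : ℤ × ℤ × ℤ, CHO.Alg C v m m' ∧ VGood v ∧ hz1 v m = -1 ∧ hz2 v m' = 1 ∧
      (m'.2.2 - m.2.2 = 1 ∨ m'.2.2 - m.2.2 = -1) := by
  obtain ⟨M, N, n0, n2, hn, -, -, -, -, -, -, -, -, h5, h6, h7⟩ := h.exists_M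
  have k := h.adbc
  refine ⟨(-(C 1 1 * n2), n2, -C 2 1), (C 1 1 * n0, -n0, C 0 1),
    (-(C 0 2 * (C 1 1 * n2)) + C 1 2 + C 2 2 * (C 1 1 * n0), C 0 2 * n2 - C 2 2 * n0,
      -(C 0 2 * C 2 1) + C 2 2 * C 0 1), ⟨h.c00, h.c10, h.c20, k, ?_, ?_, ?_, ?_, ?_, ?_, ?_, ?_⟩,
    ⟨h5, h6, ?_⟩, ?_, ?_, ?_⟩
  · show n2 * C 0 1 - -n0 * -C 2 1 = 1
    linear_combination hn
  · show -(C 1 1 * n2) * (-(C 0 2 * C 2 1) + C 2 2 * C 0 1) -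
      (-(C 0 2 * (C 1 1 * n2)) + C 1 2 + C 2 2 * (C 1 1 * n0)) * -C 2 1 = -1
    linear_combination (-(C 1 1 * C 2 2)) * hn - k
  · show C 0 1 * -(C 1 1 * n2) + C 1 1 + C 2 1 * (C 1 1 * n0) = 0
    linear_combination (-C 1 1) * hn
  · show C 0 1 * n2 + C 2 1 * -n0 = 1
    linear_combination hn
  · show C 0 1 * -C 2 1 + C 2 1 * C 0 1 = 0
    ring
  · show C 0 2 * -(C 1 1 * n2) + C 1 2 + C 2 2 * (C 1 1 * n0) =
      -(C 0 2 * (C 1 1 * n2)) + C 1 2 + C 2 2 * (C 1 1 * n0)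
    ring
  · show C 0 2 * n2 + C 2 2 * -n0 = C 0 2 * n2 - C 2 2 * n0
    ring
  · show C 0 2 * -C 2 1 + C 2 2 * C 0 1 = -(C 0 2 * C 2 1) + C 2 2 * C 0 1
    ring
  · show (-C 2 1) % 2 = 1
    have := h.odd
    rw [Int.odd_iff] at this
    omega
  · show -C 2 1 * -n0 - n2 * C 0 1 = -1
    linear_combination -hn
  · show -C 2 1 * (-(C 0 2 * (C 1 1 * n2)) + C 1 2 + C 2 2 * (C 1 1 * n0)) -
      -(C 1 1 * n2) * (-(C 0 2 * C 2 1) + C 2 2 * C 0 1) = 1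
    linear_combination (C 1 1 * C 2 2) * hn + k
  · show -(C 0 2 * C 2 1) + C 2 2 * C 0 1 - C 0 1 = 1 ∨ -(C 0 2 * C 2 1) + C 2 2 * C 0 1 - C 0 1 = -1
    rcases h.pq with h | h
    · left; linear_combination h
    · right; linear_combination h

end Pool.Agent.CSZ
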