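import Pool.Agent.CSZ.Skel
import Pool.Agent.B1X.Win
import Pool.Agent.CHO.ObM
import Pool.Agent.CHW.FnM
import Pool.Agent.CSE.Stmt

/-!
# CSZ/Main: every Cappell-Shaneson sphere is diffeomorphic to `S^4`
-/

open scoped Manifold ContDiff

namespace Pool.Agent.CSZ

open Pool.Agent.CSG

universe u

theorem cs_standard {A : Matrix (Fin 3) (Fin 3) ℤ} (hA : A.det = 1)
    (hA1 : (A - 1).det = 1 ∨ (A - 1).det = -1)
    {X : Type u} [TopologicalSpace X] [ChartedSpace CSG.E4 X] [T2Space X] (D : CSData A X) :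
    Nonempty (X ≃ₘ⟮𝓡 4, 𝓡 4⟯ RSG.S4) :=
  cs_standard_of B1X.win_gam (fun h0 h1 h2 h3 h4 => CHW.exists_WD h0 h1 h2 h3 h4)
    (fun hP _ D _ h => ⟨CHO.theOB D hP h, CHO.theOB_kK D hP h, CHO.theOB_act D hP h⟩) hA hA1 D

theorem always_s4 {A : Matrix (Fin 3) (Fin 3) ℤ} (hA : CSE.CSMatrix A) : CSE.AlwaysS4.{u} A :=
  CSE.alwaysS4_of hA (fun _ _ _ _ D => cs_standard hA.1 hA.2 D) (fun _ _ _ _ D => cs_standard hA.1 hA.2 D)

end Pool.Agent.CSZ
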