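import Pool.Agent.STR.Main
import Pool.Agent.CSP.AlPD
import Pool.Agent.CSP.TwA
import Pool.Agent.CSP.PdsM
import Pool.Agent.CSZ.Alg
import Pool.Agent.CPI.Main

/-!
# CSZ/Skel: every Cappell-Shaneson sphere is diffeomorphic to `S^4` (assembly from three inputs)
-/

open scoped Manifold ContDiff Topology
open Set Filter
open Complex (I)

namespace Pool.Agent.CSZ

open Pool.Agent.CSG Pool.Agent.CSP Pool.Agent.PTH Pool.Agent.GLB
open Pool.Agent.STR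
open Pool.Agent.CHW (WD)
open Pool.Agent.RBM (ThickT TwinP OnT)

universe u

/-- the twin of `kP O` is carried by the knot `O.kK (l, 0, l)` -/
theorem carries_of_twin {κ₀ : Equiv.Perm CSG.E3} {ε : ℝ} {k : ℤ} (O : OB ISP κ₀ ε k SP)
    {v : ℤ × ℤ × ℤ} (hc1 : IsCoprime v.1 v.2.2) (hc2 : IsCoprime v.2.1 v.2.2)
    (heq : ∀ l z τ, O.kK (l, z, τ) = gact v τ (O.kK (l, z, 0)))
    {X : Type u} [TopologicalSpace X] [ChartedSpace CSG.E4 X]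
    (h : Nonempty (TwinP ISP (kP O) (-1) 1 X)) :
    Carries ISP (gact v) (-1) (fun l => O.kK (l, 0, l)) X := by
  have hA : Act ISP (gact v) := GLB.gact_act hc1 hc2
  refine ⟨kP O, 1, kP_thick O, fun l z t => ?_, fun l => ?_, h⟩
  · show O.kK (l, z, t + l) = gact v t (O.kK (l, z, 0 + l))
    rw [heq l z (t + l), heq l z (0 + l), hA.add, zero_add]
  · show O.kK (l, 0, 0 + l) = O.kK (l, 0, l)
    rw [zero_add]

theorem cs_standard_of (hΓ : CSW.WIn Gam.{u})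
    (hwd : ∀ {d₀ x₁ : ℝ}, 0 < d₀ → 0 < x₁ → x₁ < 1 / 16 → d₀ ≤ 1 / 8 → x₁ ≤ d₀ →
      ∃ ε₀ : ℝ, 0 < ε₀ ∧ ∀ ε, 0 < ε → ε ≤ ε₀ → Nonempty (WD d₀ x₁ ε))
    (hob : ∀ {P : CHO.Pm}, P.Ok → ∀ {ε : ℝ} (D : WD P.d₀ P.x₁ ε) {κ₀ : Equiv.Perm CSG.E3},
      (∀ x, κ₀ x = act P.C (P.κ 1 x)) → ∃ O : OB ISP κ₀ ε P.k SP, O.kK = CHO.kK D ∧
        ∀ l z τ, O.kK (l, z, τ) = gact P.v τ (O.kK (l, z, 0)))
    {A : Matrix (Fin 3) (Fin 3) ℤ} (hA : A.det = 1) (hA1 : (A - 1).det = 1 ∨ (A - 1).det = -1)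
    {X : Type u} [TopologicalSpace X] [ChartedSpace CSG.E4 X] [T2Space X] (D : CSData A X) :
    Nonempty (X ≃ₘ⟮𝓡 4, 𝓡 4⟯ RSG.S4) := by
  obtain ⟨C, κ, δ, κ₀, k, ε₀, hC, hκ, h0, hm, hax, he, he', hP⟩ := pd_normal hA hA1 D
  obtain ⟨v, m, m', hal, hv, hz, hz', hc⟩ := exists_alg hC
  -- the parameters
  set P : CHO.Pm := ⟨C, κ, δ, δ / 5, δ / 5, k, v, m, m'⟩ with hPdef
  have hok : P.Ok := ⟨hal, hκ, by have := hκ.pos; show 0 < δ / 5; positivity,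
    by have := hκ.pos; show 4 * (δ / 5) < δ; linarith, by have := hκ.pos; show 0 < δ / 5; positivity,
    by have := hκ.le; show δ / 5 < 1 / 16; linarith⟩
  have hd : δ / 5 ≤ 1 / 8 := by have := hκ.le; have := hκ.pos; linarith
  obtain ⟨ε₁, h1, hW⟩ := hwd hok.d₀_pos hok.x₁_pos hok.x₁_lt hd le_rfl
  set ε := min ε₀ ε₁ with hε
  have hε0 : 0 < ε := lt_min he h1
  obtain ⟨W⟩ := hW ε hε0 (min_le_right _ _)
  obtain ⟨O, hO1, hO2⟩ := hob hok W h0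
  obtain ⟨PDt⟩ := hP ε hε0 (min_le_left _ _)
  obtain ⟨PDs⟩ := pds_of_pd PDt hε0 ((min_le_left _ _).trans he')
  have ht := twin_of_pds O PDs hε0 ((min_le_left _ _).trans he') hax.off
  have hcar := carries_of_twin O hv.cop1 hv.cop2 hO2 ht
  obtain ⟨ρ₁, ρ₂, g₀, g₁, g₃, Dc, hs, hcrv, hsmall, hin, hout, hg, hg0, hg1, hX⟩ :=
    CPI.core_final.{u} hok hv W
  rw [hO1] at hcar
  have hG := hX (-1) X hcar
  refine star_S4 hΓ hv hs (ε := -1) ⟨Or.inr rfl, hz, by rw [hz']; norm_num, hcrv, hsmall,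
    hin, ?_⟩ hg hg0 (j := 1) ?_ ?_ hG
  · have h2 : v.2.2 * (Dc ρ₂).re + hz2 v m * (Dc ρ₂).im < 0 := hout
    push_cast
    linarith
  · obtain ⟨e, he1, he2⟩ := hg1
    exact ⟨e, he1, fun ρ h => by rw [he2 ρ h]; norm_num⟩
  · rcases hc with hc | hc
    · left; linarith
    · right; linarith

end Pool.Agent.CSZ
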